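import Pool.Agent.H7.HD.Tools2

/-!
# MP_e37c09_lc, module HF: one of the `M`-atoms is positive at almost all points of an `N`-atom
-/

open Ordinal Cardinal Order Set
open scoped ZFSet

universe u

namespace Pool.Agent.H77.HD.HF
open _root_.HD

theorem pos_dr (hEA : T_EA.{u}) (hDA : T_DA.{u}) {en : Ordinal.{u} → ZFSet.{u}} (hen : EN en)
    (μ : Ordinal.{u}) : DR fun α c => Pos μ α (E en c) := by
  have h1 := (hEA en hen).1
  have h2 : DO fun w : ℕ → Ordinal.{u} => Pos (w 0) (w 1) {a | a ∈ E en (w 2)} :=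
    hDA 0 1 (fun a w => a ∈ E en (w 2)) (DO.s2 (X := fun a c => a ∈ E en c) h1 0 3)
  exact DO.sub (R := fun x w => Pos x (w 0) {a | a ∈ E en (w 1)}) μ h2

theorem cof_ord_eq {K : Cardinal.{u}} (hK : K.IsRegular) : K.ord.cof = K := hK.cof_ord

theorem T_HF_proof (hEA : T_EA.{u}) (hDA : T_DA.{u}) (hVA : T_VA.{u}) (hVC : T_VC.{u})
    (hVF : T_VF.{u}) : T_HF.{u} := by
  intro en M N K hen hM hN hK hMN hNK τ hτ e hN0 d hd
  by_contra hcon
  push Not at hcon
  have hM0 : ℵ₀ ≤ M := hM.aleph0_le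
  have hN0' : ℵ₀ < N := hM0.trans_lt hMN
  have hK0 : ℵ₀ < K := hN0'.trans hNK
  have hKc : K.ord.cof = K := cof_ord_eq hK
  have hτN : τ.card < N := Cardinal.lt_ord.1 hτ
  -- the set of points where the complement is positive
  have hn1 := hVF M.ord N K hN hK hNK _ hN0
  -- for every `i` the other part is null
  have hi : ∀ i < τ, ¬ Pos N.ord K.ord {α | α ∈ E en d ∧ Pos M.ord α (E en (e i))} := by
    intro i hi hpos
    have hneg := hcon i hi
    have hds : DS {α | Pos M.ord α (E en (e i))} := by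
      have h2 := pos_dr hEA hDA hen M.ord
      exact DO.sub (R := fun x w => Pos M.ord (w 0) (E en x)) (e i)
        (DO.s2 (X := fun α c => Pos M.ord α (E en c)) h2 1 0)
    obtain ⟨x, hx⟩ := (hEA en hen).2.2.1 _ hds K.ord
    refine hd.ult x ⟨hpos.mono ?_, hneg.mono ?_⟩
    · rintro b hb ⟨h1, h2⟩ -
      exact ⟨h1, by rw [hx]; exact ⟨h2, hb⟩⟩
    · rintro b hb ⟨h1, h2⟩ -
      refine ⟨h1, ?_⟩
      rw [hx]
      rintro ⟨h3, -⟩
      exact h2 h3
  have hnull := hVA N.ord K.ord (by rw [hKc]; exact hK0) τ (by rw [hKc]; exact hτN.trans hNK)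
    (fun i => {α | α ∈ E en d ∧ Pos M.ord α (E en (e i))}) hi
  have hall := null_union hVA (by rw [hKc]; exact hK0) hnull hn1
  refine hall (hd.pos.mono fun α hα hαd hcf => ?_)
  -- a point `α` of cofinality `N` in the atom
  by_contra hno
  simp only [mem_union, Set.mem_ofPred_eq, not_or, not_exists, not_and] at hno
  obtain ⟨hno1, hno2⟩ := hno
  have hcof : α.cof = N := Cardinal.ord_injective hcf
  have hu := hVC M α hM (by rw [hcof]; exact hMN)
  have h3 := hVA M.ord α (by rw [hcof]; exact hN0') τ (by rw [hcof]; exact hτN)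
    (fun i => E en (e i)) (fun i hi => hno1 i hi hαd)
  have h4 := null_union hVA (by rw [hcof]; exact hN0') h3 hno2
  refine h4 (hu.mono fun b _ _ _ => ?_)
  by_cases hb : ∃ i < τ, b ∈ E en (e i)
  · exact Or.inl hb
  · push Not at hb
    exact Or.inr hb

end Pool.Agent.H77.HD.HF
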