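import Pool.Agent.H7.HD.Tools2

/-!
# MP_e37c09_lc, module HI: almost all `α` are such that `c` gives an ultrafilter on `α`
-/

open Ordinal Cardinal Order Set
open scoped ZFSet

universe u

namespace Pool.Agent.H77.HD.HI
open _root_.HD

theorem T_HI_proof (hHG : T_HG.{u}) (hHH : T_HH.{u}) (hEA : T_EA.{u}) (hDA : T_DA.{u})
    (hVA : T_VA.{u}) : T_HI.{u} := by
  intro en M N K c d h
  have hM0 : ℵ₀ ≤ M := h.mreg.aleph0_le
  have hN0 : ℵ₀ < N := hM0.trans_lt h.mn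
  have hK0 : ℵ₀ < K := hN0.trans h.nk
  have hKc : K.ord.cof = K := h.kreg.cof_ord
  obtain ⟨hE1, hE2, hE3, hE4⟩ := hEA en h.hen
  let R : Ordinal.{u} → Ordinal.{u} → Prop := fun α e =>
    Pos M.ord α (E en c ∩ E2 en e 0) ∧ Pos M.ord α (E en c \ E2 en e 0)
  -- definability
  have hc : DO fun w : ℕ → Ordinal.{u} => w 0 ∈ E en c :=
    DO.sub (R := fun x w => w 0 ∈ E en x) c (DO.s2 (X := fun a c => a ∈ E en c) hE1 1 0)
  have he0 : DO fun w : ℕ → Ordinal.{u} => w 0 ∈ E2 en (w 1) 0 :=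
    DO.sub (R := fun x w => w 0 ∈ E2 en (w 1) x) 0
      (DO.s3 (X := fun a b c => a ∈ E2 en c b) hE2 1 0 2)
  have hR : DR R := by
    refine DO.and ?_ ?_
    · refine DO.sub (R := fun x w => Pos x (w 0) {a | a ∈ E en c ∧ a ∈ E2 en (w 1) 0}) M.ord ?_
      exact hDA 0 1 (fun a w => a ∈ E en c ∧ a ∈ E2 en (w 2) 0)
        (hc.and (DO.s2 (X := fun a e => a ∈ E2 en e 0) he0 0 3))
    · refine DO.sub (R := fun x w => Pos x (w 0) {a | a ∈ E en c ∧ ¬ a ∈ E2 en (w 1) 0}) M.ord ?_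
      exact hDA 0 1 (fun a w => a ∈ E en c ∧ ¬ a ∈ E2 en (w 2) 0)
        (hc.and (DO.s2 (X := fun a e => a ∈ E2 en e 0) he0 0 3).not)
  obtain ⟨e', he'⟩ := hHG en N.ord K d h.hen h.kreg hK0 h.ad R hR
  -- the set `Y`
  let Y : Set Ordinal.{u} := E2 en e' 0
  have hY : DS Y := DO.sub (R := fun x w => w 0 ∈ E2 en x 0) e'
    (DO.s2 (X := fun a e => a ∈ E2 en e 0) he0 1 0)
  obtain ⟨x, hx⟩ := hE3 Y hY K.ord
  have hult := h.ac.ult x
  have h1 : Pos M.ord K.ord (E en c ∩ E en x) ↔ Pos M.ord K.ord (E en c ∩ Y) := by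
    refine Pos.congr fun b hb => ?_
    rw [hx]
    exact ⟨fun h => ⟨h.1, h.2.1⟩, fun h => ⟨h.1, h.2, hb⟩⟩
  have h2 : Pos M.ord K.ord (E en c \ E en x) ↔ Pos M.ord K.ord (E en c \ Y) := by
    refine Pos.congr fun b hb => ?_
    rw [hx]
    exact ⟨fun h => ⟨h.1, fun h' => h.2 ⟨h', hb⟩⟩, fun h => ⟨h.1, fun h' => h.2 h'.1⟩⟩
  rw [h1, h2] at hult
  -- the points where both parts are positive form a null set
  have hnull : ¬ Pos N.ord K.ord {α | α ∈ E en d ∧ Pos M.ord α (E en c ∩ Y) ∧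
      Pos M.ord α (E en c \ Y)} := by
    by_cases hp : Pos M.ord K.ord (E en c \ Y)
    · have hq : ¬ Pos M.ord K.ord (E en c ∩ Y) := fun hq => hult ⟨hq, hp⟩
      have hYc : DS Yᶜ := DO.not hY
      have he : E en c \ Yᶜ = E en c ∩ Y := by
        ext b
        simp
      have := (hHH en M N K c d h Yᶜ hYc).1 (by rw [he]; exact hq)
      rw [he] at this
      exact fun hpos => this (hpos.mono fun b _ hb _ => ⟨hb.1, hb.2.1⟩)
    · have := (hHH en M N K c d h Y hY).1 hp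
      exact fun hpos => this (hpos.mono fun b _ hb _ => ⟨hb.1, hb.2.2⟩)
  have hfin := null_union hVA (by rw [hKc]; exact hK0) he' hnull
  refine fun hpos => hfin (hpos.mono fun α hα hmem hcf => ?_)
  obtain ⟨hαd, x, hx1, hx2⟩ := hmem
  have hα0 : 0 < α := by
    rw [pos_iff_ne_zero]
    rintro rfl
    have : N.ord = 0 := by
      rw [← hcf]
      simp
    rw [Cardinal.ord_eq_zero] at this
    exact hN0.ne_bot (by rw [this]; rfl)
  have hex : ∃ e, R α e := by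
    have hdr : DR fun a b => a = 0 ∧ b ∈ E en x := by
      refine DO.and (DO.eqc 0 0) ?_
      exact DO.sub (R := fun x w => w 1 ∈ E en x) x
        (DO.s2 (X := fun a c => a ∈ E en c) hE1 2 0)
    obtain ⟨e, he⟩ := hE4 _ hdr α
    refine ⟨e, hx1.mono fun b hb hbm _ => ?_, hx2.mono fun b hb hbm _ => ?_⟩
    · exact ⟨hbm.1, (he 0 b).2 ⟨hα0, hb, rfl, hbm.2⟩⟩
    · exact ⟨hbm.1, fun h' => hbm.2 ((he 0 b).1 h').2.2.2⟩
  by_cases hag : ∃ e, R α e ∧ ∀ a < α, ∀ b < α, (b ∈ E2 en e a ↔ b ∈ E2 en e' a)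
  · obtain ⟨e, ⟨hr1, hr2⟩, hag⟩ := hag
    refine Or.inr ⟨hαd, hr1.mono fun b hb hbm _ => ?_, hr2.mono fun b hb hbm _ => ?_⟩
    · exact ⟨hbm.1, (hag 0 hα0 b hb).1 hbm.2⟩
    · exact ⟨hbm.1, fun h' => hbm.2 ((hag 0 hα0 b hb).2 h')⟩
  · exact Or.inl ⟨hαd, hex, hag⟩

end Pool.Agent.H77.HD.HI
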